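import Pool.Agent.Q276.BA.Stm

/-!
# BA-B: one-dimensional calculus
-/

set_option autoImplicit false

namespace Pool.Agent.Q164.BA

open MeasureTheory Set Finset Pool.Agent.Q276.BA Pool.Agent.Y282.RB.A2

/-! ### the coefficients -/

lemma alt_sum (m n : ℕ) :
    ∑ l ∈ range (n + 1), (-1 : ℝ) ^ (n + l) * (n.choose l : ℝ) * ((m + l).choose n : ℝ) = 1 := by
  have h1 := fwdDiff_iter_eq_sum_shift (1 : ℕ) (fun x : ℕ => ((x.choose n : ℕ) : ℤ)) n m
  have h2 := fwdDiff_iter_choose (j := 0) (k := n)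
  rw [add_zero] at h2
  rw [h2] at h1
  simp only [Nat.choose_zero_right, Nat.cast_one, smul_eq_mul, mul_one] at h1
  have h3 : ((1 : ℤ) : ℝ) = ((∑ k ∈ range (n + 1), (-1 : ℤ) ^ (n - k) * (n.choose k : ℤ) *
      ((m + k).choose n : ℤ) : ℤ) : ℝ) := by rw [← h1]
  push_cast at h3
  refine Eq.trans (sum_congr rfl fun k hk => ?_) h3.symm
  rw [Finset.mem_range] at hk
  congr 2
  have e : n + k = (n - k) + 2 * k := by omega
  rw [e, pow_add, pow_mul]
  simp

/-- the coefficients -/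
noncomputable def co (m n l : ℕ) : ℝ :=
  (-1) ^ (n + l) * (n : ℝ) * ((n - 1).choose l : ℝ) * ((m + l).choose n : ℝ)

/-- the divided coefficients -/
noncomputable def dd (m n l : ℕ) : ℝ :=
  (-1) ^ (n + l) * (n.choose l : ℝ) * ((m + l).choose n : ℝ)

lemma cc_eq {m n : ℕ} (h : n ≤ m) (l : ℕ) : cc (m - n) n l = co m n l := by
  unfold cc co
  have e : n + (m - n) + l = m + l := by omega
  rw [e]

lemma co_dd {m n l : ℕ} (hl : l < n) : co m n l = ((n : ℝ) - l) * dd m n l := by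
  unfold co dd
  obtain ⟨k, rfl⟩ : ∃ k, n = k + 1 := ⟨n - 1, by omega⟩
  have h1 := Nat.choose_mul_succ_eq k l
  have h2 : (k.choose l : ℝ) * ((k : ℝ) + 1) = ((k + 1).choose l : ℝ) * ((k : ℝ) + 1 - l) := by
    have h3 : ((k.choose l * (k + 1) : ℕ) : ℝ) = (((k + 1).choose l * (k + 1 - l) : ℕ) : ℝ) := by
      rw [h1]
    rw [Nat.cast_mul, Nat.cast_mul, Nat.cast_sub (by omega)] at h3
    push_cast at h3
    exact h3
  rw [Nat.add_sub_cancel]
  push_cast
  linear_combination (-1) ^ (k + 1 + l) * ((m + l).choose (k + 1) : ℝ) * h2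

lemma co_succ {m n l : ℕ} (hn : n ≤ m) :
    co m (n + 1) l = -((m : ℝ) - n + l) * dd m n l := by
  unfold co dd
  have h1 := Nat.choose_succ_right_eq (m + l) n
  have h2 : ((m + l).choose (n + 1) : ℝ) * ((n : ℝ) + 1) =
      ((m + l).choose n : ℝ) * ((m : ℝ) + l - n) := by
    have h3 : (((m + l).choose (n + 1) * (n + 1) : ℕ) : ℝ) =
        (((m + l).choose n * (m + l - n) : ℕ) : ℝ) := by rw [h1]
    rw [Nat.cast_mul, Nat.cast_mul, Nat.cast_sub (by omega)] at h3
    push_cast at h3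
    exact h3
  rw [Nat.add_sub_cancel]
  have h4 : (-1 : ℝ) ^ (n + 1 + l) = -(-1) ^ (n + l) := by
    rw [show n + 1 + l = n + l + 1 by ring, pow_succ]; ring
  rw [h4]
  push_cast
  linear_combination -(-1) ^ (n + l) * (n.choose l : ℝ) * h2

lemma co_last (m n : ℕ) : co m (n + 1) n = -(m : ℝ) * (1 - ∑ l ∈ range n, dd m n l) := by
  have h0 := alt_sum m n
  rw [sum_range_succ] at h0
  have h1 : ∑ l ∈ range n, dd m n l =
      ∑ l ∈ range n, (-1 : ℝ) ^ (n + l) * (n.choose l : ℝ) * ((m + l).choose n : ℝ) := rfl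
  rw [h1]
  unfold co
  have h2 := Nat.choose_succ_right_eq (m + n) n
  have h3 : ((m + n).choose (n + 1) : ℝ) * ((n : ℝ) + 1) = ((m + n).choose n : ℝ) * (m : ℝ) := by
    have h4 : (((m + n).choose (n + 1) * (n + 1) : ℕ) : ℝ) =
        (((m + n).choose n * (m + n - n) : ℕ) : ℝ) := by rw [h2]
    rw [Nat.add_sub_cancel] at h4
    push_cast at h4
    exact h4
  have h5 : (-1 : ℝ) ^ (n + n) = 1 := Even.neg_one_pow ⟨n, rfl⟩
  have h6 : (-1 : ℝ) ^ (n + 1 + n) = -1 := by
    rw [show n + 1 + n = n + n + 1 by ring, pow_succ, h5]; ring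
  rw [h5, Nat.choose_self] at h0
  rw [h6, Nat.add_sub_cancel, Nat.choose_self]
  push_cast at h0 ⊢
  linear_combination -h3 - (m : ℝ) * h0

/-! ### integrals -/

lemma ioi_eq {F : ℝ → ℂ} {R : ℝ} (hF : ∀ x, R ≤ x → F x = 0) (t : ℝ) :
    ∫ u in Ioi t, F u = ∫ u in t..R, F u := by
  rcases le_total t R with h | h
  · rw [intervalIntegral.integral_of_le h]
    refine setIntegral_eq_of_subset_of_forall_sdiff_eq_zero measurableSet_Ioi
      (fun x hx => hx.1) (fun x hx => ?_)
    apply hF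
    by_contra hlt
    exact hx.2 ⟨hx.1, (not_le.mp hlt).le⟩
  · have h1 : ∫ u in Ioi t, F u = 0 :=
      setIntegral_eq_zero_of_forall_eq_zero fun x hx => hF x (h.trans (show t < x from hx).le)
    have h2 : ∫ u in Ioc R t, F u = 0 :=
      setIntegral_eq_zero_of_forall_eq_zero fun x hx => hF x hx.1.le
    rw [intervalIntegral.integral_of_ge h, h1, h2, neg_zero]

lemma ioi_deriv {F : ℝ → ℂ} {R : ℝ} (hF : ∀ x, R ≤ x → F x = 0) (hc : Continuous F) (t : ℝ) :
    HasDerivAt (fun s => ∫ u in Ioi s, F u) (-F t) t := by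
  have h1 : (fun s => ∫ u in Ioi s, F u) = fun s => ∫ u in s..R, F u := by
    funext s; exact ioi_eq hF s
  rw [h1]
  exact intervalIntegral.integral_hasDerivAt_left (hc.intervalIntegrable _ _)
    (hc.stronglyMeasurableAtFilter _ _) hc.continuousAt

lemma ioi_ftc {G G' : ℝ → ℂ} {R : ℝ} (hG : ∀ x, R ≤ x → G x = 0) (hG' : ∀ x, R ≤ x → G' x = 0)
    (hd : ∀ x, HasDerivAt G (G' x) x) (hc : Continuous G') (t : ℝ) :
    ∫ u in Ioi t, G' u = -G t := by
  rw [ioi_eq hG' t, intervalIntegral.integral_eq_sub_of_hasDerivAt (fun x _ => hd x)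
    (hc.intervalIntegrable _ _), hG R le_rfl, zero_sub]

/-- **BA-B.** -/
theorem b : S_B := by
  intro m n hn Φ hΦ ⟨R0, hR0⟩
  set R : ℝ := R0 + 1 with hR
  set g : ℕ → ℝ → ℂ := fun j => iteratedDeriv j Φ with hg
  have hgs : ∀ j, ContDiff ℝ (⊤ : ℕ∞) (g j) := by
    intro j
    induction j with
    | zero => rw [hg]; simp only [iteratedDeriv_zero]; exact hΦ
    | succ j ih =>
      have : g (j + 1) = deriv (g j) := by rw [hg]; exact iteratedDeriv_succ
      rw [this]
      exact ((contDiff_infty_iff_deriv (f := g j)).1 ih).2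
  have hgc : ∀ j, Continuous (g j) := fun j => (hgs j).continuous
  have hgd : ∀ j x, HasDerivAt (g j) (g (j + 1) x) x := by
    intro j x
    have : g (j + 1) = deriv (g j) := by rw [hg]; exact iteratedDeriv_succ
    rw [this]
    exact (((hgs j).differentiable (by norm_num)) x).hasDerivAt
  have hgz' : ∀ j x, R0 < x → g j x = 0 := by
    intro j
    induction j with
    | zero => intro x hx; rw [hg]; simp only [iteratedDeriv_zero]; exact hR0 x hx.le
    | succ j ih =>
      intro x hx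
      have h1 : g j =ᶠ[nhds x] fun _ => 0 := by
        filter_upwards [lt_mem_nhds hx] with y hy using ih y hy
      have h2 : g (j + 1) x = deriv (g j) x := (hgd j x).deriv.symm
      rw [h2, h1.deriv_eq]
      simp
  have hgz : ∀ j x, R ≤ x → g j x = 0 := fun j x hx => hgz' j x (by rw [hR] at hx; linarith)
  -- the integrals
  set A : ℕ → ℕ → ℝ → ℂ := fun j k t => ∫ u in Ioi t, (u : ℂ) ^ k * g j u with hA
  have hFc : ∀ j k, Continuous fun u : ℝ => (u : ℂ) ^ k * g j u := fun j k =>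
    (Complex.continuous_ofReal.pow k).mul (hgc j)
  have hFz : ∀ j k (x : ℝ), R ≤ x → (x : ℂ) ^ k * g j x = 0 := fun j k x hx => by
    rw [hgz j x hx, mul_zero]
  have hpow : ∀ (k : ℕ) (x : ℝ), HasDerivAt (fun u : ℝ => (u : ℂ) ^ k) ((k : ℂ) * (x : ℂ) ^ (k - 1)) x := by
    intro k x
    exact (hasDerivAt_pow k (x : ℂ)).comp_ofReal
  have hAd : ∀ (j k : ℕ) (t : ℝ), HasDerivAt (A j k) (-((t : ℂ) ^ k * g j t)) t := fun j k t =>
    ioi_deriv (hFz j k) (hFc j k) t
  have hrel0 : ∀ (j : ℕ) (t : ℝ), A (j + 1) 0 t = -g j t := by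
    intro j t
    have := ioi_ftc (hgz j) (hgz (j + 1)) (hgd j) (hgc (j + 1)) t
    rw [← this, hA]
    simp
  have hrel : ∀ (j k : ℕ) (t : ℝ), ((k : ℂ) + 1) * A j k t + A (j + 1) (k + 1) t = -((t : ℂ) ^ (k + 1) * g j t) := by
    intro j k t
    have h1 := ioi_ftc (G := fun u : ℝ => (u : ℂ) ^ (k + 1) * g j u)
      (G' := fun u : ℝ => ((k : ℂ) + 1) * ((u : ℂ) ^ k * g j u) + (u : ℂ) ^ (k + 1) * g (j + 1) u)
      (hFz j (k + 1)) (fun x hx => by rw [hgz j x hx, hgz (j + 1) x hx]; ring)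
      (fun x => by
        have h2 := (hpow (k + 1) x).mul (hgd j x)
        refine h2.congr_deriv ?_
        rw [Nat.add_sub_cancel]
        push_cast
        ring)
      ((continuous_const.mul (hFc j k)).add (hFc (j + 1) (k + 1))) t
    rw [← h1]
    have i1 : ∀ j k, IntegrableOn (fun u : ℝ => (u : ℂ) ^ k * g j u) (Ioi t) := by
      intro j k
      have h3 : IntegrableOn (fun u : ℝ => (u : ℂ) ^ k * g j u) (Ioc t (max t R)) :=
        ((hFc j k).intervalIntegrable t (max t R)).1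
      have h4 : IntegrableOn (fun u : ℝ => (u : ℂ) ^ k * g j u) (Ioi (max t R)) :=
        (integrableOn_zero (ε' := ℂ)).congr_fun (fun x hx => (hFz j k x
          ((le_max_right t R).trans (le_of_lt hx))).symm) measurableSet_Ioi
      have h5 : Ioi t = Ioc t (max t R) ∪ Ioi (max t R) :=
        (Ioc_union_Ioi_eq_Ioi (le_max_left t R)).symm
      rw [h5]
      exact h3.union h4
    rw [integral_add ((i1 j k).const_mul _) (i1 (j + 1) (k + 1)), integral_const_mul]
  -- induction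
  have key : ∀ n : ℕ, n ≤ m → ∀ t : ℝ, HH m Φ n t = (t : ℂ) ^ n * g n t +
      ∑ l ∈ range n, ((co m n l : ℝ) : ℂ) * (t : ℂ) ^ l * A n (n - 1 - l) t := by
    intro n
    induction n with
    | zero => intro _ t; simp [HH, hg]
    | succ n ih =>
      intro hn t
      have ih' := ih (by omega)
      have hfun : HH m Φ n = fun t : ℝ => (t : ℂ) ^ n * g n t +
          ∑ l ∈ range n, ((co m n l : ℝ) : ℂ) * (t : ℂ) ^ l * A n (n - 1 - l) t := by
        funext s; exact ih' s
      have hder : HasDerivAt (HH m Φ n) (((n : ℂ) * (t : ℂ) ^ (n - 1)) * g n t +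
          (t : ℂ) ^ n * g (n + 1) t + ∑ l ∈ range n, ((co m n l : ℝ) : ℂ) *
            (((l : ℂ) * (t : ℂ) ^ (l - 1)) * A n (n - 1 - l) t +
              (t : ℂ) ^ l * (-((t : ℂ) ^ (n - 1 - l) * g n t)))) t := by
        rw [hfun]
        refine ((hpow n t).mul (hgd n t)).add (HasDerivAt.fun_sum fun l _ => ?_)
        have h1 := ((hpow l t).mul (hAd n (n - 1 - l) t)).const_mul ((co m n l : ℝ) : ℂ)
        refine (h1.congr_of_eventuallyEq ?_)
        filter_upwards with s
        simp only [Pi.mul_apply]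
        ring
      have e1 : HH m Φ (n + 1) t = ((m - n : ℕ) : ℂ) * HH m Φ n t + (t : ℂ) * deriv (HH m Φ n) t := rfl
      rw [e1, hder.deriv, ih' t, Nat.cast_sub (by omega), sum_range_succ]
      have hn0 : (t : ℂ) * ((n : ℂ) * (t : ℂ) ^ (n - 1)) = n * (t : ℂ) ^ n := by
        cases n with
        | zero => simp
        | succ n => rw [Nat.add_sub_cancel, pow_succ]; ring
      have hB : A (n + 1) (n + 1 - 1 - n) t = -g n t := by
        have : n + 1 - 1 - n = 0 := by omega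
        rw [this]; exact hrel0 n t
      rw [hB, co_last]
      have hterm : ∀ l ∈ range n, ((m : ℂ) - n) * (((co m n l : ℝ) : ℂ) * (t : ℂ) ^ l * A n (n - 1 - l) t) +
          (t : ℂ) * (((co m n l : ℝ) : ℂ) *
            (((l : ℂ) * (t : ℂ) ^ (l - 1)) * A n (n - 1 - l) t +
              (t : ℂ) ^ l * (-((t : ℂ) ^ (n - 1 - l) * g n t)))) -
          ((co m (n + 1) l : ℝ) : ℂ) * (t : ℂ) ^ l * A (n + 1) (n + 1 - 1 - l) t =
          -(m : ℂ) * ((dd m n l : ℝ) : ℂ) * ((t : ℂ) ^ n * g n t) := by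
        intro l hl
        rw [Finset.mem_range] at hl
        obtain ⟨k, rfl⟩ : ∃ k, n = l + 1 + k := ⟨n - l - 1, by omega⟩
        have e2 : l + 1 + k - 1 - l = k := by omega
        have e3 : l + 1 + k + 1 - 1 - l = k + 1 := by omega
        rw [e2, e3, co_dd hl, co_succ (by omega)]
        have hl0 : (t : ℂ) * ((l : ℂ) * (t : ℂ) ^ (l - 1)) = l * (t : ℂ) ^ l := by
          cases l with
          | zero => simp
          | succ l => rw [Nat.add_sub_cancel, pow_succ]; ring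
        have h2 := hrel (l + 1 + k) k t
        have h3 : (t : ℂ) ^ (l + 1 + k) = (t : ℂ) ^ l * (t : ℂ) ^ (k + 1) := by
          rw [← pow_add]; congr 1; ring
        rw [h3]
        push_cast
        linear_combination ((m : ℂ) - ((l : ℂ) + 1 + k) + l) * ((dd m (l + 1 + k) l : ℝ) : ℂ) *
          (t : ℂ) ^ l * h2 + ((l : ℂ) + 1 + k - l) * ((dd m (l + 1 + k) l : ℝ) : ℂ) *
          A (l + 1 + k) k t * hl0
      have hs := sum_congr rfl hterm
      rw [sum_sub_distrib, sum_add_distrib, ← mul_sum, ← mul_sum] at hs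
      have h4 : ∑ l ∈ range n, -(m : ℂ) * ((dd m n l : ℝ) : ℂ) * ((t : ℂ) ^ n * g n t) =
          -(m : ℂ) * ((∑ l ∈ range n, dd m n l : ℝ) : ℂ) * ((t : ℂ) ^ n * g n t) := by
        rw [← sum_mul, ← mul_sum, Complex.ofReal_sum]
      rw [h4] at hs
      push_cast
      push_cast at hs
      linear_combination hs + g n t * hn0
  intro t
  rw [key n hn t]
  congr 1
  refine sum_congr rfl fun l _ => ?_
  rw [cc_eq hn]

end Pool.Agent.Q164.BA
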