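import Pool.Agent.Q276.BA.Stm2

/-!
# Project BA, job N2b: change of variables by an automorphism of the unit disc
-/

set_option autoImplicit false

open MeasureTheory Set Filter Topology
open scoped BigOperators ENNReal

namespace Pool.Agent.Q164.BA

open Pool.Agent.Q276.BA

/-- polar coordinates in the unit disc with `v = r ^ 2` -/
lemma polar (F : ℂ → ℝ) (hF : ContinuousOn F (Metric.closedBall 0 1)) :
    ∫ v in (0 : ℝ)..1, (1 / (2 * Real.pi)) * ∫ θ in (0 : ℝ)..(2 * Real.pi),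
      F ((Real.sqrt v : ℂ) * Complex.exp (θ * Complex.I)) =
    (1 / Real.pi) * ∫ z in Metric.ball (0 : ℂ) 1, F z := by
  have hpi := Real.pi_pos
  -- the right side
  have h1 : ∫ z in Metric.ball (0 : ℂ) 1, F z =
      ∫ r in Ioo (0 : ℝ) 1, ∫ θ in Ioo (-Real.pi) Real.pi, r * F ((r : ℂ) * Complex.exp (θ * Complex.I)) := by
    rw [← integral_indicator Metric.isOpen_ball.measurableSet, ← Complex.integral_comp_polarCoord_symm]
    have e0 : ∀ p : ℝ × ℝ, Complex.polarCoord.symm p = (p.1 : ℂ) * Complex.exp (p.2 * Complex.I) := by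
      intro p
      rw [Complex.polarCoord_symm_apply, Complex.exp_mul_I, Complex.ofReal_cos, Complex.ofReal_sin]
    have e1 : ∫ p in polarCoord.target, p.1 • (Metric.ball (0 : ℂ) 1).indicator F (Complex.polarCoord.symm p) =
        ∫ p in polarCoord.target, (Iio (1 : ℝ) ×ˢ (univ : Set ℝ)).indicator
          (fun p : ℝ × ℝ => p.1 * F ((p.1 : ℂ) * Complex.exp (p.2 * Complex.I))) p := by
      refine setIntegral_congr_fun polarCoord.open_target.measurableSet fun p hp => ?_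
      rw [polarCoord_target] at hp
      have hp1 : 0 < p.1 := hp.1
      have hn : ‖(p.1 : ℂ) * Complex.exp (p.2 * Complex.I)‖ = p.1 := by
        rw [norm_mul, Complex.norm_exp_ofReal_mul_I, mul_one, Complex.norm_real, Real.norm_of_nonneg hp1.le]
      show p.1 • (Metric.ball (0 : ℂ) 1).indicator F (Complex.polarCoord.symm p) = _
      rw [e0 p]
      by_cases h : p.1 < 1
      · rw [indicator_of_mem (by rw [mem_ball_zero_iff, hn]; exact h), indicator_of_mem (by exact ⟨h, mem_univ _⟩)]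
        rfl
      · rw [indicator_of_notMem (by rw [mem_ball_zero_iff, hn]; exact h),
          indicator_of_notMem (by exact fun h' => h h'.1), smul_zero]
    rw [e1, setIntegral_indicator (measurableSet_Iio.prod MeasurableSet.univ), polarCoord_target]
    have e2 : (Ioi (0 : ℝ) ×ˢ Ioo (-Real.pi) Real.pi) ∩ (Iio (1 : ℝ) ×ˢ (univ : Set ℝ)) =
        Ioo (0 : ℝ) 1 ×ˢ Ioo (-Real.pi) Real.pi := by
      rw [prod_inter_prod, inter_univ, Ioi_inter_Iio]
    rw [e2, Measure.volume_eq_prod]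
    refine setIntegral_prod (fun p : ℝ × ℝ => p.1 * F ((p.1 : ℂ) * Complex.exp (p.2 * Complex.I))) ?_
    have hc : ContinuousOn (fun p : ℝ × ℝ => p.1 * F ((p.1 : ℂ) * Complex.exp (p.2 * Complex.I)))
        (Icc (0 : ℝ) 1 ×ˢ Icc (-Real.pi) Real.pi) := by
      refine continuous_fst.continuousOn.mul (hF.comp (by fun_prop) ?_)
      intro p hp
      rw [mem_closedBall_zero_iff, norm_mul, Complex.norm_exp_ofReal_mul_I, mul_one, Complex.norm_real,
        Real.norm_of_nonneg hp.1.1]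
      exact hp.1.2
    have hi := hc.integrableOn_compact (μ := (volume : Measure (ℝ × ℝ))) (isCompact_Icc.prod isCompact_Icc)
    rw [Measure.volume_eq_prod] at hi
    exact hi.mono_set (prod_mono Ioo_subset_Icc_self Ioo_subset_Icc_self)
  -- the left side
  have h2 : ∀ r : ℝ, ∫ θ in Ioo (-Real.pi) Real.pi, r * F ((r : ℂ) * Complex.exp (θ * Complex.I)) =
      r * ∫ θ in (0 : ℝ)..(2 * Real.pi), F ((r : ℂ) * Complex.exp (θ * Complex.I)) := by
    intro r
    rw [integral_const_mul, ← integral_Ioc_eq_integral_Ioo, ← intervalIntegral.integral_of_le (by linarith)]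
    congr 1
    have hper : Function.Periodic (fun θ : ℝ => F ((r : ℂ) * Complex.exp (θ * Complex.I))) (2 * Real.pi) := by
      intro θ
      simp only
      congr 2
      push_cast
      rw [add_mul, Complex.exp_add, Complex.exp_two_pi_mul_I, mul_one]
    have := hper.intervalIntegral_add_eq (-Real.pi) 0
    rw [zero_add, show -Real.pi + 2 * Real.pi = Real.pi by ring] at this
    exact this
  simp only [h2] at h1
  rw [h1]
  have h3 : (fun r : ℝ => r ^ 2) '' Ioo (0 : ℝ) 1 = Ioo (0 : ℝ) 1 := by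
    ext v
    constructor
    · rintro ⟨r, hr, rfl⟩
      have h0 := hr.1
      have h1 := hr.2
      exact ⟨by positivity, by nlinarith⟩
    · intro hv
      refine ⟨Real.sqrt v, ⟨Real.sqrt_pos.2 hv.1, ?_⟩, Real.sq_sqrt hv.1.le⟩
      rw [Real.sqrt_lt' one_pos]
      simpa using hv.2
  rw [intervalIntegral.integral_of_le zero_le_one, integral_Ioc_eq_integral_Ioo]
  rw [← h3, integral_image_eq_integral_abs_deriv_smul (f' := fun r : ℝ => 2 * r) measurableSet_Ioo]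
  · rw [h3, ← integral_const_mul]
    refine setIntegral_congr_fun measurableSet_Ioo fun r hr => ?_
    have hr0 := hr.1
    simp only [smul_eq_mul]
    rw [Real.sqrt_sq hr0.le, abs_of_pos (by linarith)]
    generalize ∫ θ in (0 : ℝ)..(2 * Real.pi), F ((r : ℂ) * Complex.exp (θ * Complex.I)) = J
    field_simp
  · intro r _
    have := (hasDerivAt_pow 2 r).hasDerivWithinAt (s := Ioo (0 : ℝ) 1)
    simpa using this
  · intro r hr r' hr' h
    exact (pow_left_inj₀ hr.1.le hr'.1.le two_ne_zero).1 h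

lemma det_smulRight (z : ℂ) :
    |((ContinuousLinearMap.smulRight (1 : ℂ →L[ℂ] ℂ) z).restrictScalars ℝ).det| = ‖z‖ ^ 2 := by
  have h : (((ContinuousLinearMap.smulRight (1 : ℂ →L[ℂ] ℂ) z).restrictScalars ℝ : ℂ →L[ℝ] ℂ) :
      ℂ →ₗ[ℝ] ℂ) = Algebra.lmul ℝ ℂ z := by
    ext x
    simp [mul_comm]
  have h2 : ((ContinuousLinearMap.smulRight (1 : ℂ →L[ℂ] ℂ) z).restrictScalars ℝ).det =
      Algebra.norm ℝ z := by
    rw [Algebra.norm_apply, ← h]
  rw [h2, Algebra.norm_complex_apply, abs_of_nonneg (Complex.normSq_nonneg z),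
    Complex.normSq_eq_norm_sq]

/-- the automorphism -/
noncomputable def B (s : ℝ) (z : ℂ) : ℂ := ((s : ℂ) - z) / (1 - s * z)

section

variable {s : ℝ} (hs0 : 0 < s) (hs1 : s < 1)

include hs0 hs1

lemma den_ne {z : ℂ} (hz : ‖z‖ ≤ 1) : 1 - (s : ℂ) * z ≠ 0 := by
  intro h
  have h1 : (s : ℂ) * z = 1 := (sub_eq_zero.1 h).symm
  have h2 : ‖(s : ℂ) * z‖ = 1 := by rw [h1, norm_one]
  rw [norm_mul, Complex.norm_real, Real.norm_of_nonneg hs0.le] at h2
  nlinarith [norm_nonneg z]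

lemma one_sub_B_sq {z : ℂ} (hz : ‖z‖ ≤ 1) :
    1 - ‖B s z‖ ^ 2 = (1 - s ^ 2) * (1 - ‖z‖ ^ 2) / ‖1 - (s : ℂ) * z‖ ^ 2 := by
  have hd := den_ne hs0 hs1 hz
  have hd' : ‖1 - (s : ℂ) * z‖ ^ 2 ≠ 0 := by positivity
  unfold B
  rw [norm_div, div_pow]
  rw [eq_div_iff hd', sub_mul, div_mul_cancel₀ _ hd', one_mul]
  rw [← Complex.normSq_eq_norm_sq, ← Complex.normSq_eq_norm_sq, ← Complex.normSq_eq_norm_sq,
    Complex.normSq_apply, Complex.normSq_apply, Complex.normSq_apply]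
  simp only [Complex.sub_re, Complex.sub_im, Complex.mul_re, Complex.mul_im, Complex.ofReal_re, Complex.ofReal_im,
    Complex.one_re, Complex.one_im]
  ring

lemma den_B {z : ℂ} (hz : ‖z‖ ≤ 1) : 1 - (s : ℂ) * B s z = (1 - (s : ℂ) ^ 2) / (1 - s * z) := by
  have hd := den_ne hs0 hs1 hz
  unfold B
  field_simp
  ring

lemma num_B {z : ℂ} (hz : ‖z‖ ≤ 1) : 1 - B s z / s = z * (1 - (s : ℂ) ^ 2) / (s * (1 - s * z)) := by
  have hd := den_ne hs0 hs1 hz
  have hs : (s : ℂ) ≠ 0 := by exact_mod_cast hs0.ne'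
  unfold B
  field_simp
  ring

lemma B_B {z : ℂ} (hz : ‖z‖ ≤ 1) : B s (B s z) = z := by
  have hd := den_ne hs0 hs1 hz
  have h1 := den_B hs0 hs1 hz
  have h2 : (1 : ℂ) - (s : ℂ) ^ 2 ≠ 0 := by
    have : (1 : ℝ) - s ^ 2 ≠ 0 := by nlinarith
    exact_mod_cast this
  rw [B, h1]
  unfold B
  field_simp
  ring

lemma B_mem {z : ℂ} (hz : ‖z‖ < 1) : ‖B s z‖ < 1 := by
  have h := one_sub_B_sq hs0 hs1 hz.le
  have hd := den_ne hs0 hs1 hz.le
  have h1 : 0 < (1 - s ^ 2) * (1 - ‖z‖ ^ 2) / ‖1 - (s : ℂ) * z‖ ^ 2 := by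
    have a1 : 0 < 1 - s ^ 2 := by nlinarith
    have a2 : 0 < 1 - ‖z‖ ^ 2 := by nlinarith [norm_nonneg z]
    positivity
  rw [← h] at h1
  nlinarith [norm_nonneg (B s z)]

lemma B_image : B s '' Metric.ball (0 : ℂ) 1 = Metric.ball (0 : ℂ) 1 := by
  ext z
  constructor
  · rintro ⟨w, hw, rfl⟩
    rw [mem_ball_zero_iff] at hw ⊢
    exact B_mem hs0 hs1 hw
  · intro hz
    rw [mem_ball_zero_iff] at hz
    exact ⟨B s z, by rw [mem_ball_zero_iff]; exact B_mem hs0 hs1 hz, B_B hs0 hs1 hz.le⟩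

lemma B_deriv {z : ℂ} (hz : ‖z‖ ≤ 1) : HasDerivAt (B s) (-(1 - (s : ℂ) ^ 2) / (1 - s * z) ^ 2) z := by
  have hd := den_ne hs0 hs1 hz
  have h1 : HasDerivAt (fun z : ℂ => (s : ℂ) - z) (-1) z := by
    simpa using (hasDerivAt_id z).const_sub (s : ℂ)
  have h2 : HasDerivAt (fun z : ℂ => 1 - (s : ℂ) * z) (-(s : ℂ)) z := by
    simpa using ((hasDerivAt_id z).const_mul (s : ℂ)).const_sub 1
  have h3 := h1.div h2 hd
  have e : (-1 * (1 - (s : ℂ) * z) - ((s : ℂ) - z) * (-(s : ℂ))) / (1 - (s : ℂ) * z) ^ 2 =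
      -(1 - (s : ℂ) ^ 2) / (1 - s * z) ^ 2 := by
    congr 1
    ring
  rw [e] at h3
  exact h3

/-- change of variables in the disc -/
lemma change (F : ℂ → ℝ) : ∫ z in Metric.ball (0 : ℂ) 1, F z =
    ∫ z in Metric.ball (0 : ℂ) 1, ((1 - s ^ 2) / ‖1 - (s : ℂ) * z‖ ^ 2) ^ 2 * F (B s z) := by
  conv_lhs => rw [← B_image hs0 hs1]
  rw [integral_image_eq_integral_abs_det_fderiv_smul volume
    (f' := fun z => (ContinuousLinearMap.smulRight (1 : ℂ →L[ℂ] ℂ)
      (-(1 - (s : ℂ) ^ 2) / (1 - s * z) ^ 2)).restrictScalars ℝ) Metric.isOpen_ball.measurableSet]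
  · refine setIntegral_congr_fun Metric.isOpen_ball.measurableSet fun z hz => ?_
    simp only [smul_eq_mul]
    rw [det_smulRight, norm_div, norm_neg, norm_pow]
    have e : ‖(1 : ℂ) - (s : ℂ) ^ 2‖ = 1 - s ^ 2 := by
      have h : (1 : ℂ) - (s : ℂ) ^ 2 = ((1 - s ^ 2 : ℝ) : ℂ) := by push_cast; ring
      rw [h, Complex.norm_real, Real.norm_of_nonneg (by nlinarith)]
    rw [e]
  · intro z hz
    rw [mem_ball_zero_iff] at hz
    exact ((B_deriv hs0 hs1 hz.le).hasFDerivAt.restrictScalars ℝ).hasFDerivWithinAt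
  · intro z hz w hw h
    rw [mem_ball_zero_iff] at hz hw
    rw [← B_B hs0 hs1 hz.le, h, B_B hs0 hs1 hw.le]

end

/-- **Job N2b.** -/
theorem n2b : S_N2b := by
  intro n t hn ht0 ht1
  set s : ℝ := Real.sqrt t with hs
  have hs0 : 0 < s := Real.sqrt_pos.2 ht0
  have hs1 : s < 1 := by
    rw [hs, Real.sqrt_lt' one_pos]
    simpa using ht1
  have hst : s ^ 2 = t := Real.sq_sqrt ht0.le
  -- the two functions
  set F1 : ℂ → ℝ := fun y => (1 - ‖y‖ ^ 2) ^ (3 / 4 : ℝ) * ((n : ℝ) ^ 2 * ‖1 - y / s‖ ^ (2 * (n - 1)) /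
    ‖1 - (s : ℂ) * y‖ ^ (2 * (n + 1))) with hF1
  set F2 : ℂ → ℝ := fun z => (1 - ‖z‖ ^ 2) ^ (3 / 4 : ℝ) * (‖z‖ ^ 2) ^ (n - 1) *
    ‖1 - (s : ℂ) * z‖ ^ (-(3 / 2) : ℝ) with hF2
  have c0 : ContinuousOn (fun z : ℂ => (1 - ‖z‖ ^ 2) ^ (3 / 4 : ℝ)) (Metric.closedBall 0 1) :=
    (Continuous.rpow_const (by fun_prop) fun z => Or.inr (by norm_num)).continuousOn
  have c1 : ContinuousOn F1 (Metric.closedBall 0 1) := by
    refine c0.mul (ContinuousOn.div (by fun_prop) (by fun_prop) fun z hz => ?_)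
    rw [mem_closedBall_zero_iff] at hz
    have := den_ne hs0 hs1 hz
    positivity
  have c2 : ContinuousOn F2 (Metric.closedBall 0 1) := by
    refine (c0.mul (by fun_prop)).mul (ContinuousOn.rpow_const (by fun_prop) fun z hz => Or.inl ?_)
    rw [mem_closedBall_zero_iff] at hz
    have := den_ne hs0 hs1 hz
    positivity
  have hnv : ∀ v : ℝ, 0 ≤ v → ∀ θ : ℝ, ‖(Real.sqrt v : ℂ) * Complex.exp (θ * Complex.I)‖ ^ 2 = v := by
    intro v hv θ
    rw [norm_mul, Complex.norm_exp_ofReal_mul_I, mul_one, Complex.norm_real,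
      Real.norm_of_nonneg (Real.sqrt_nonneg v), Real.sq_sqrt hv]
  -- the left side
  have hL : ∫ v in (0 : ℝ)..1, (1 - v) ^ (3 / 4 : ℝ) * ((1 / (2 * Real.pi)) *
      ∫ θ in (0 : ℝ)..(2 * Real.pi), ker2 n t v θ) = (1 / Real.pi) * ∫ z in Metric.ball (0 : ℂ) 1, F1 z := by
    rw [← polar F1 c1]
    refine intervalIntegral.integral_congr fun v hv => ?_
    rw [uIcc_of_le zero_le_one] at hv
    rw [mul_left_comm, ← intervalIntegral.integral_const_mul]
    congr 1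
    refine intervalIntegral.integral_congr fun θ _ => ?_
    simp only [hF1, ker2]
    rw [hnv v hv.1 θ]
    congr 3
    · congr 2
      push_cast
      rw [mul_div_right_comm]
    · congr 2
      push_cast
      ring
  have hR : ∫ v in (0 : ℝ)..1, (1 - v) ^ (3 / 4 : ℝ) * v ^ (n - 1) * ((1 / (2 * Real.pi)) *
        ∫ θ in (0 : ℝ)..(2 * Real.pi),
          ‖1 - ((Real.sqrt v * s : ℝ) : ℂ) * Complex.exp (θ * Complex.I)‖ ^ (-(3 / 2) : ℝ)) =
      (1 / Real.pi) * ∫ z in Metric.ball (0 : ℂ) 1, F2 z := by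
    rw [← polar F2 c2]
    refine intervalIntegral.integral_congr fun v hv => ?_
    rw [uIcc_of_le zero_le_one] at hv
    rw [mul_left_comm, ← intervalIntegral.integral_const_mul]
    congr 1
    refine intervalIntegral.integral_congr fun θ _ => ?_
    simp only [hF2]
    rw [hnv v hv.1 θ]
    congr 3
    push_cast
    ring
  rw [hL, hR, change hs0 hs1, mul_left_comm]
  congr 1
  rw [← integral_const_mul]
  refine setIntegral_congr_fun Metric.isOpen_ball.measurableSet fun z hz => ?_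
  rw [mem_ball_zero_iff] at hz
  have hd := den_ne hs0 hs1 hz.le
  have hD : 0 < ‖1 - (s : ℂ) * z‖ := norm_pos_iff.2 hd
  have h1t : 0 < 1 - t := by linarith
  simp only [hF1, hF2]
  rw [one_sub_B_sq hs0 hs1 hz.le, den_B hs0 hs1 hz.le, num_B hs0 hs1 hz.le]
  have e1 : ‖(1 : ℂ) - (s : ℂ) ^ 2‖ = 1 - t := by
    have h : (1 : ℂ) - (s : ℂ) ^ 2 = ((1 - t : ℝ) : ℂ) := by rw [← hst]; push_cast; ring
    rw [h, Complex.norm_real, Real.norm_of_nonneg h1t.le]
  rw [norm_div, norm_div, norm_mul, norm_mul, e1, Complex.norm_real, Real.norm_of_nonneg hs0.le, hst]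
  set D := ‖1 - (s : ℂ) * z‖ with hDd
  have hz2 : 0 ≤ 1 - ‖z‖ ^ 2 := by nlinarith [norm_nonneg z]
  rw [Real.div_rpow (by positivity) (by positivity), Real.mul_rpow h1t.le hz2]
  obtain ⟨m, rfl⟩ : ∃ m, n = m + 1 := ⟨n - 1, by omega⟩
  rw [Nat.add_sub_cancel]
  have e2 : (D ^ 2) ^ (3 / 4 : ℝ) = D ^ (3 / 2 : ℝ) := by
    rw [← Real.rpow_natCast, ← Real.rpow_mul hD.le]
    norm_num
  have e3 : (1 - t) ^ (-(5 / 4) : ℝ) = (1 - t) ^ (3 / 4 : ℝ) / (1 - t) ^ 2 := by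
    rw [← Real.rpow_natCast, ← Real.rpow_sub h1t]
    norm_num
  have e4 : D ^ (-(3 / 2) : ℝ) = 1 / D ^ (3 / 2 : ℝ) := by
    rw [Real.rpow_neg hD.le, one_div]
  have e5 : t ^ m = s ^ (2 * m) := by rw [pow_mul, hst]
  rw [e2, e3, e4, e5]
  have hP : 0 < D ^ (3 / 2 : ℝ) := Real.rpow_pos_of_pos hD _
  generalize (1 - ‖z‖ ^ 2) ^ (3 / 4 : ℝ) = X
  generalize (1 - t) ^ (3 / 4 : ℝ) = Y
  generalize D ^ (3 / 2 : ℝ) = P at hP
  rw [← pow_mul]
  simp only [div_pow, mul_pow]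
  have h1 := hD.ne'
  have h2 := hP.ne'
  have h3 := h1t.ne'
  have h4 := hs0.ne'
  field_simp
  ring

end Pool.Agent.Q164.BA
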